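import Mathlib
import Pool.Agent.Results.MP_5a426c_al.RealClosure

/-!
# Field closures and the strong 2-closure over ordered fields
-/

set_option autoImplicit false

namespace Pool.Agent.FCL

open Pool.Agent.Results.MP_5a426c_al.RealClosure Polynomial

variable {Ω : Type*} [Fintype Ω] [DecidableEq Ω] {F : Type*} [Field F]

/-- The permutation operator on functions. -/
def T (F : Type*) [Field F] (σ : Equiv.Perm Ω) : (Ω → F) →ₗ[F] (Ω → F) :=
  LinearMap.funLeft F F σ.symm

/-- Identification of the permutation module with functions. -/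
noncomputable abbrev fn (F : Type*) [Field F] : (Ω →₀ F) ≃ₗ[F] (Ω → F) :=
  Finsupp.linearEquivFunOnFinite F F Ω

omit [Fintype Ω] [DecidableEq Ω] in
lemma T_apply (σ : Equiv.Perm Ω) (v : Ω → F) (b : Ω) : T F σ v b = v (σ.symm b) := rfl

omit [Fintype Ω] in
lemma T_single (σ : Equiv.Perm Ω) (a : Ω) (c : F) :
    T F σ (Pi.single a c) = Pi.single (σ a) c := by
  ext b
  rw [T_apply]
  by_cases h : b = σ a
  · subst h; simp
  · rw [Pi.single_eq_of_ne h, Pi.single_eq_of_ne]
    intro h'
    exact h (by rw [← h']; simp)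

lemma fn_permMap (σ : Equiv.Perm Ω) (v : Ω →₀ F) : fn F (permMap F σ v) = T F σ (fn F v) := by
  induction v using Finsupp.induction_linear with
  | zero => simp
  | add f g hf hg => simp only [map_add, hf, hg]
  | single a c =>
    rw [permMap, Finsupp.lmapDomain_apply, Finsupp.mapDomain_single]
    ext b
    rw [T_apply]
    simp only [Finsupp.linearEquivFunOnFinite_apply, Finsupp.single_apply]
    congr 1
    rw [eq_iff_iff]
    constructor
    · rintro rfl; simp
    · rintro h; rw [h]; simp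

lemma map_fn (σ : Equiv.Perm Ω) (W : Submodule F (Ω →₀ F)) :
    (W.map (permMap F σ)).map (fn F).toLinearMap = (W.map (fn F).toLinearMap).map (T F σ) := by
  ext v
  constructor
  · rintro ⟨_, ⟨w, hw, rfl⟩, rfl⟩
    exact ⟨fn F w, ⟨w, hw, rfl⟩, (fn_permMap σ w).symm⟩
  · rintro ⟨_, ⟨w, hw, rfl⟩, rfl⟩
    exact ⟨permMap F σ w, ⟨w, hw, rfl⟩, fn_permMap σ w⟩

omit [DecidableEq Ω] in
lemma T_dot (σ : Equiv.Perm Ω) (v w : Ω → F) : T F σ v ⬝ᵥ T F σ w = v ⬝ᵥ w := by
  simp only [dotProduct, T_apply]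
  exact Equiv.sum_comp σ.symm (fun i => v i * w i)

omit [Fintype Ω] [DecidableEq Ω] in
lemma T_mul (σ τ : Equiv.Perm Ω) (v : Ω → F) : T F σ (T F τ v) = T F (σ * τ) v := by
  ext b
  simp [T_apply, Equiv.Perm.mul_def]

omit [Fintype Ω] [DecidableEq Ω] in
lemma T_one (v : Ω → F) : T F (1 : Equiv.Perm Ω) v = v := by
  ext b
  rfl

/-- Symmetric operators. -/
def Sym (P : (Ω → F) →ₗ[F] (Ω → F)) : Prop := ∀ v w, P v ⬝ᵥ w = v ⬝ᵥ P w

lemma ext_single {P Q : (Ω → F) →ₗ[F] (Ω → F)}
    (h : ∀ a : Ω, P (Pi.single a 1) = Q (Pi.single a 1)) : P = Q := by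
  refine (Pi.basisFun F Ω).ext fun a => ?_
  simpa using h a

lemma entry_eq_dot (P : (Ω → F) →ₗ[F] (Ω → F)) (a b : Ω) :
    P (Pi.single b 1) a = Pi.single a 1 ⬝ᵥ P (Pi.single b 1) := by
  simp

lemma entry_symm {P : (Ω → F) →ₗ[F] (Ω → F)} (hP : Sym P) (a b : Ω) :
    P (Pi.single b 1) a = P (Pi.single a 1) b := by
  rw [entry_eq_dot, ← hP, dotProduct_comm, ← entry_eq_dot]

lemma commute_iff' (P : (Ω → F) →ₗ[F] (Ω → F)) (σ : Equiv.Perm Ω) :
    (∀ v, P (T F σ v) = T F σ (P v)) ↔
      ∀ a b, P (Pi.single (σ b) 1) (σ a) = P (Pi.single b 1) a := by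
  constructor
  · intro h a b
    rw [← T_single, h, T_apply, Equiv.symm_apply_apply]
  · intro h v
    have : P ∘ₗ T F σ = T F σ ∘ₗ P := by
      apply ext_single
      intro b
      ext a
      rw [LinearMap.comp_apply, LinearMap.comp_apply, T_single, T_apply]
      have := h (σ.symm a) b
      rwa [Equiv.apply_symm_apply] at this
    exact LinearMap.congr_fun this v

/-- A symmetric operator commuting with `G` commutes with the strong 2-closure. -/
lemma commute_of_mem_strong {G : Subgroup (Equiv.Perm Ω)} {σ : Equiv.Perm Ω}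
    (hσ : σ ∈ strongTwoClosure G) (hG : ¬ (Nat.card Ω = 2 ∧ G = ⊥))
    {P : (Ω → F) →ₗ[F] (Ω → F)} (hP : Sym P)
    (hPG : ∀ g ∈ G, ∀ v, P (T F g v) = T F g (P v)) (v : Ω → F) :
    P (T F σ v) = T F σ (P v) := by
  revert v
  rw [commute_iff']
  have hinv : ∀ g ∈ G, ∀ a b, P (Pi.single (g b) 1) (g a) = P (Pi.single b 1) a :=
    fun g hg => (commute_iff' P g).mp (hPG g hg)
  intro a b
  by_cases hab : a = b
  · subst hab
    obtain ⟨g, hg, hga⟩ := point_moves hσ hG a
    rw [← hga, hinv g hg]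
  · obtain ⟨g, hg, h | h⟩ := pair_moves hσ hab
    · rw [← h.1, ← h.2, hinv g hg]
    · rw [← h.1, ← h.2, entry_symm hP, hinv g hg]

variable [LinearOrder F] [IsStrictOrderedRing F]

/-- The dot product as a bilinear form. -/
abbrev B (Ω F : Type*) [Fintype Ω] [Field F] : LinearMap.BilinForm F (Ω → F) :=
  dotProductBilin F F

omit [DecidableEq Ω] in
lemma isCompl_orth (W : Submodule F (Ω → F)) : IsCompl W ((B Ω F).orthogonal W) := by
  have hrefl : (B Ω F).IsRefl := by
    intro x y h
    rw [dotProductBilin_apply_apply] at h ⊢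
    rw [dotProduct_comm]; exact h
  rw [LinearMap.BilinForm.isCompl_orthogonal_iff_disjoint hrefl, Submodule.disjoint_def]
  intro x hx hx'
  rw [LinearMap.BilinForm.mem_orthogonal_iff] at hx'
  have := hx' x hx
  rw [dotProductBilin_apply_apply] at this
  exact dotProduct_self_eq_zero.mp this

/-- The orthogonal projection onto `W`. -/
noncomputable def proj (W : Submodule F (Ω → F)) : (Ω → F) →ₗ[F] (Ω → F) :=
  Submodule.projection W ((B Ω F).orthogonal W) (isCompl_orth W)

omit [DecidableEq Ω] in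
lemma proj_mem (W : Submodule F (Ω → F)) (v : Ω → F) : proj W v ∈ W :=
  Submodule.projection_apply_mem _ _

omit [DecidableEq Ω] in
lemma proj_of_mem {W : Submodule F (Ω → F)} {v : Ω → F} (hv : v ∈ W) : proj W v = v :=
  Submodule.projection_apply_of_mem_left _ hv

omit [DecidableEq Ω] in
lemma proj_orth (W : Submodule F (Ω → F)) (v w : Ω → F) (hw : w ∈ W) :
    w ⬝ᵥ (v - proj W v) = 0 := by
  obtain ⟨x, hx, y, hy, rfl⟩ : ∃ x ∈ W, ∃ y ∈ (B Ω F).orthogonal W, x + y = v := by
    have : v ∈ W ⊔ (B Ω F).orthogonal W := by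
      rw [(isCompl_orth W).sup_eq_top]; exact Submodule.mem_top
    obtain ⟨x, hx, y, hy, h⟩ := Submodule.mem_sup.mp this
    exact ⟨x, hx, y, hy, h⟩
  have h1 : proj W y = 0 := by
    rw [proj, Submodule.projection_apply]
    rw [Submodule.projectionOnto_apply_eq_zero_iff (isCompl_orth W) |>.mpr hy]
    rfl
  rw [map_add, proj_of_mem hx, h1, add_zero, add_sub_cancel_left]
  rw [LinearMap.BilinForm.mem_orthogonal_iff] at hy
  exact hy w hw

omit [DecidableEq Ω] in
lemma proj_sym (W : Submodule F (Ω → F)) : Sym (proj W) := by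
  intro v w
  have h1 := proj_orth W w (proj W v) (proj_mem W v)
  have h2 := proj_orth W v (proj W w) (proj_mem W w)
  rw [dotProduct_sub, sub_eq_zero] at h1 h2
  rw [h1, ← dotProduct_comm (proj W w), ← h2, dotProduct_comm]

omit [DecidableEq Ω] in
/-- Characterisation of the projection. -/
lemma proj_eq {W : Submodule F (Ω → F)} {v x : Ω → F} (hx : x ∈ W)
    (h : ∀ w ∈ W, w ⬝ᵥ (v - x) = 0) : proj W v = x := by
  have h1 : proj W v - x ∈ W := W.sub_mem (proj_mem W v) hx
  have h2 : (proj W v - x) ⬝ᵥ (proj W v - x) = 0 := by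
    have h3 := h _ h1
    have h4 := proj_orth W v _ h1
    have h5 : proj W v - x = (v - x) - (v - proj W v) := by abel
    nth_rewrite 2 [h5]
    rw [dotProduct_sub, h3, h4, sub_zero]
  have := dotProduct_self_eq_zero.mp h2
  exact sub_eq_zero.mp this

omit [DecidableEq Ω] in
lemma proj_comm (W : Submodule F (Ω → F)) (g : Equiv.Perm Ω) (hg : W.map (T F g) = W)
    (v : Ω → F) : proj W (T F g v) = T F g (proj W v) := by
  apply proj_eq
  · have h1 : T F g (proj W v) ∈ W.map (T F g) := ⟨_, proj_mem W v, rfl⟩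
    rwa [hg] at h1
  · intro w hw
    rw [← hg] at hw
    obtain ⟨w', hw', rfl⟩ := hw
    rw [← map_sub, T_dot]
    exact proj_orth W v w' hw'

omit [DecidableEq Ω] in
lemma map_eq_of_proj (W : Submodule F (Ω → F)) (σ : Equiv.Perm Ω)
    (h : ∀ v, proj W (T F σ v) = T F σ (proj W v)) : W.map (T F σ) = W := by
  ext v
  constructor
  · rintro ⟨w, hw, rfl⟩
    rw [← proj_of_mem hw, ← h]
    exact proj_mem W _
  · intro hv
    refine ⟨T F σ⁻¹ v, ?_, ?_⟩
    · have h1 : proj W (T F σ⁻¹ v) = T F σ⁻¹ v := by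
        have h2 := h (T F σ⁻¹ v)
        rw [T_mul, mul_inv_cancel, T_one, proj_of_mem hv] at h2
        have h3 := congrArg (T F σ⁻¹) h2
        rw [T_mul, inv_mul_cancel, T_one] at h3
        exact h3.symm
      rw [← h1]
      exact proj_mem W _
    · rw [T_mul, mul_inv_cancel, T_one]

/-- **Part 1.** Over an ordered field the strong 2-closure is contained in the field
closure, outside the degenerate case. -/
theorem strong_subset' (G : Subgroup (Equiv.Perm Ω)) (hG : ¬ (Nat.card Ω = 2 ∧ G = ⊥)) :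
    strongTwoClosure G ⊆ fieldClosure F G := by
  intro σ hσ W hW
  have hinj : Function.Injective (Submodule.map (fn F (Ω := Ω)).toLinearMap) :=
    Submodule.map_injective_of_injective (fn F (Ω := Ω)).injective
  have hWeq : ∀ g ∈ G, W.map (permMap F g) = W := by
    intro g hg
    apply le_antisymm (hW g hg)
    intro w hw
    refine ⟨permMap F g⁻¹ w, hW _ (G.inv_mem hg) ⟨w, hw, rfl⟩, ?_⟩
    have : (permMap F g ∘ₗ permMap F g⁻¹) w = w := by
      rw [permMap, permMap, ← Finsupp.lmapDomain_comp, show (⇑g ∘ ⇑g⁻¹ : Ω → Ω) = id from by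
        ext x; simp]
      simp
    exact this
  let W' := W.map (fn F (Ω := Ω)).toLinearMap
  have hinv : ∀ g ∈ G, ∀ v, proj W' (T F g v) = T F g (proj W' v) := by
    intro g hg
    apply proj_comm
    rw [← map_fn, hWeq g hg]
  have hσinv := commute_of_mem_strong hσ hG (proj_sym W') hinv
  have := map_eq_of_proj W' σ hσinv
  rw [← map_fn] at this
  exact hinj this

end Pool.Agent.FCL
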