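import Mathlib
import Pool.Agent.FCL.Basic

/-!
# Symmetric operators whose eigenvalues lie in the ordered field
-/

set_option autoImplicit false

namespace Pool.Agent.FCL

open Pool.Agent.Results.MP_5a426c_al.RealClosure Polynomial

variable {Ω : Type*} [Fintype Ω] [DecidableEq Ω] {F : Type*} [Field F]

omit [DecidableEq Ω] in
lemma Sym.pow {P : (Ω → F) →ₗ[F] (Ω → F)} (hP : Sym P) (n : ℕ) : Sym (P ^ n) := by
  induction n with
  | zero => intro v w; simp
  | succ n ih =>
    intro v w
    have h1 : (P ^ (n + 1)) v = P ((P ^ n) v) := by rw [pow_succ']; rfl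
    have h2 : (P ^ (n + 1)) w = (P ^ n) (P w) := by rw [pow_succ]; rfl
    rw [h1, h2, hP, ih]

omit [DecidableEq Ω] in
lemma Sym.aeval {P : (Ω → F) →ₗ[F] (Ω → F)} (hP : Sym P) (p : F[X]) :
    Sym (Polynomial.aeval P p) := by
  intro v w
  induction p using Polynomial.induction_on' with
  | add p q hp hq =>
    rw [map_add, LinearMap.add_apply, LinearMap.add_apply, add_dotProduct, dotProduct_add, hp, hq]
  | monomial n a =>
    rw [aeval_monomial, Module.End.mul_apply, Module.End.mul_apply, Module.algebraMap_end_apply,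
      Module.algebraMap_end_apply, smul_dotProduct, dotProduct_smul, hP.pow]

variable [LinearOrder F] [IsStrictOrderedRing F]

omit [DecidableEq Ω] in
lemma Sym.eq_zero_of_pow {P : (Ω → F) →ₗ[F] (Ω → F)} (hP : Sym P) :
    ∀ n : ℕ, P ^ n = 0 → P = 0 := by
  intro n
  induction n using Nat.strong_induction_on with
  | _ n ih =>
    intro hn
    rcases Nat.lt_or_ge n 2 with h | h
    · interval_cases n
      · have h1 : (1 : (Ω → F) →ₗ[F] (Ω → F)) = 0 := by simpa using hn
        calc P = P * 1 := (mul_one P).symm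
          _ = 0 := by rw [h1, mul_zero]
      · simpa using hn
    · apply ih (n - 1) (by omega)
      ext1 v
      rw [LinearMap.zero_apply, ← dotProduct_self_eq_zero, hP.pow, ← Module.End.mul_apply,
        ← pow_add]
      have : P ^ (n - 1 + (n - 1)) = 0 := by
        have e : n - 1 + (n - 1) = n + (n - 2) := by omega
        rw [e, pow_add, hn, zero_mul]
      rw [this]
      simp

omit [LinearOrder F] [IsStrictOrderedRing F] in
lemma le_iSup_eigenspace {V : Type*} [AddCommGroup V] [Module F V] (P : V →ₗ[F] V)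
    (s : Finset F) :
    LinearMap.ker (Polynomial.aeval P (∏ a ∈ s, (X - C a))) ≤
      ⨆ μ : F, Module.End.eigenspace P μ := by
  classical
  induction s using Finset.induction_on with
  | empty =>
    intro v hv
    have : v = 0 := by simpa using hv
    rw [this]; exact Submodule.zero_mem _
  | insert a s ha ih =>
    rw [Finset.prod_insert ha, ← Polynomial.sup_ker_aeval_eq_ker_aeval_mul_of_coprime]
    · refine sup_le ?_ ih
      refine le_trans ?_ (le_iSup _ a)
      intro v hv
      rw [Module.End.mem_eigenspace_iff]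
      have : P v - a • v = 0 := by
        simpa [Module.algebraMap_end_apply] using hv
      exact sub_eq_zero.mp this
    · apply IsCoprime.prod_right
      intro b hb
      exact Polynomial.isCoprime_X_sub_C_of_isUnit_sub
        (sub_ne_zero.mpr (show a ≠ b by rintro rfl; exact ha hb)).isUnit

omit [DecidableEq Ω] in
/-- A symmetric operator annihilated by a nonzero polynomial that splits is diagonalisable. -/
lemma iSup_eigenspace_eq_top {P : (Ω → F) →ₗ[F] (Ω → F)} (hP : Sym P) {p : F[X]}
    (hp0 : p ≠ 0) (hp : p.Splits) (hpP : Polynomial.aeval P p = 0) :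
    (⨆ μ : F, Module.End.eigenspace P μ) = ⊤ := by
  classical
  set r : F[X] := ∏ a ∈ p.roots.toFinset, (X - C a) with hr
  have hdvd : p ∣ C p.leadingCoeff * r ^ (Multiset.card p.roots) := by
    have h1 : p = C p.leadingCoeff * (p.roots.map fun a => X - C a).prod :=
      hp.eq_prod_roots
    nth_rewrite 1 [h1]
    apply mul_dvd_mul_left
    have h2 : ∀ m : Multiset F, (∀ a ∈ m, a ∈ p.roots) →
        (m.map fun a => X - C a).prod ∣ r ^ (Multiset.card m) := by
      intro m
      induction m using Multiset.induction_on with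
      | empty => intro _; simp
      | cons a m ih =>
        intro h
        rw [Multiset.map_cons, Multiset.prod_cons, Multiset.card_cons, pow_succ']
        apply mul_dvd_mul _ (ih fun b hb => h b (Multiset.mem_cons_of_mem hb))
        rw [hr]
        exact Finset.dvd_prod_of_mem (fun a => X - C a)
          (Multiset.mem_toFinset.mpr (h a (Multiset.mem_cons_self a m)))
    exact h2 p.roots fun a ha => ha
  have h3 : (Polynomial.aeval P r) ^ (Multiset.card p.roots) = 0 := by
    obtain ⟨q, hq⟩ := hdvd
    have h4 := congrArg (Polynomial.aeval P) hq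
    rw [map_mul, map_mul, hpP, zero_mul, map_pow, aeval_C] at h4
    have h5 : p.leadingCoeff ≠ 0 := leadingCoeff_ne_zero.mpr hp0
    have h6 := congrArg (fun z => algebraMap F (Module.End F (Ω → F)) p.leadingCoeff⁻¹ * z) h4
    simp only [mul_zero] at h6
    rw [← mul_assoc, ← map_mul, inv_mul_cancel₀ h5, map_one, one_mul] at h6
    exact h6
  have h4 : Polynomial.aeval P r = 0 := (hP.aeval r).eq_zero_of_pow _ h3
  rw [eq_top_iff]
  refine le_trans ?_ (le_iSup_eigenspace P p.roots.toFinset)
  intro v _
  rw [LinearMap.mem_ker, ← hr, h4]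
  rfl

/-- A permutation in the field closure commutes with every symmetric operator commuting with
the group and annihilated by a nonzero polynomial that splits. -/
lemma commute_of_mem_fieldClosure' {G : Subgroup (Equiv.Perm Ω)} {σ : Equiv.Perm Ω}
    (hσ : σ ∈ fieldClosure F G) {P : (Ω → F) →ₗ[F] (Ω → F)} (hP : Sym P)
    (hG : ∀ g ∈ G, ∀ v, P (T F g v) = T F g (P v)) {p : F[X]}
    (hp0 : p ≠ 0) (hp : p.Splits) (hpP : Polynomial.aeval P p = 0) (v : Ω → F) :
    P (T F σ v) = T F σ (P v) := by
  have hE : ∀ μ : F, ∀ v ∈ Module.End.eigenspace P μ, P (T F σ v) = T F σ (P v) := by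
    intro μ v hv
    let W : Submodule F (Ω →₀ F) :=
      (Module.End.eigenspace P μ).comap (fn F (Ω := Ω)).toLinearMap
    have hW : IsInvariant G W := by
      rintro g hg _ ⟨w, hw, rfl⟩
      have hw' : P (fn F w) = μ • fn F w := Module.End.mem_eigenspace_iff.mp hw
      change fn F (permMap F g w) ∈ Module.End.eigenspace P μ
      rw [Module.End.mem_eigenspace_iff, fn_permMap, hG g hg, hw', map_smul]
    have hmem : permMap F σ ((fn F).symm v) ∈ W := by
      rw [← hσ W hW]
      refine ⟨(fn F).symm v, ?_, rfl⟩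
      change fn F ((fn F).symm v) ∈ Module.End.eigenspace P μ
      rw [LinearEquiv.apply_symm_apply]
      exact hv
    have h2 : fn F (permMap F σ ((fn F).symm v)) ∈ Module.End.eigenspace P μ := hmem
    rw [fn_permMap, LinearEquiv.apply_symm_apply, Module.End.mem_eigenspace_iff] at h2
    rw [h2, Module.End.mem_eigenspace_iff.mp hv, map_smul]
  have htop := iSup_eigenspace_eq_top hP hp0 hp hpP
  have hle : (⨆ μ : F, Module.End.eigenspace P μ) ≤
      LinearMap.eqLocus (P ∘ₗ T F σ) (T F σ ∘ₗ P) :=
    iSup_le fun μ v hv => hE μ v hv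
  rw [htop] at hle
  exact hle (Submodule.mem_top (x := v))

/-- The 0/1 matrix of an orbit on 2-element subsets. -/
def orbMat (G : Subgroup (Equiv.Perm Ω)) (s : Finset Ω)
    [DecidablePred (fun t : Finset Ω => t ∈ setOrbit G s)] (R : Type*) [Zero R] [One R] :
    Matrix Ω Ω R := fun a b => if ({a, b} : Finset Ω) ∈ setOrbit G s then 1 else 0

omit [Fintype Ω] [DecidableEq Ω] in
lemma mem_orbit_map (G : Subgroup (Equiv.Perm Ω)) (s : Finset Ω) {g : Equiv.Perm Ω}
    (hg : g ∈ G) (t : Finset Ω) :
    t.map g.toEmbedding ∈ setOrbit G s ↔ t ∈ setOrbit G s := by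
  constructor
  · rintro ⟨k, hk, hkt⟩
    refine ⟨g⁻¹ * k, G.mul_mem (G.inv_mem hg) hk, ?_⟩
    have := congrArg (fun u : Finset Ω => u.map (g⁻¹ : Equiv.Perm Ω).toEmbedding) hkt
    simp only [Finset.map_map] at this
    calc t = t.map (g.toEmbedding.trans (g⁻¹ : Equiv.Perm Ω).toEmbedding) := by
          ext x; simp
      _ = _ := this
      _ = _ := rfl
  · rintro ⟨k, hk, rfl⟩
    exact ⟨g * k, G.mul_mem hg hk, by rw [Finset.map_map]; rfl⟩

omit [Fintype Ω] in
lemma pair_map (g : Equiv.Perm Ω) (a b : Ω) :
    ({g a, g b} : Finset Ω) = ({a, b} : Finset Ω).map g.toEmbedding := by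
  ext x; simp

omit [LinearOrder F] [IsStrictOrderedRing F] in
lemma toLin'_entry (M : Matrix Ω Ω F) (a b : Ω) :
    Matrix.toLin' M (Pi.single b 1) a = M a b := by
  simp

omit [LinearOrder F] [IsStrictOrderedRing F] [DecidableEq Ω] in
lemma sym_toLin' [DecidableEq Ω] {M : Matrix Ω Ω F} (h : ∀ a b, M a b = M b a) :
    Sym (Matrix.toLin' M) := by
  intro v w
  have hM : M.transpose = M := by ext a b; exact h b a
  rw [Matrix.toLin'_apply, Matrix.toLin'_apply, Matrix.dotProduct_mulVec, ← Matrix.mulVec_transpose,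
    hM]

omit [LinearOrder F] [IsStrictOrderedRing F] in
/-- A permutation commuting with all symmetric 0/1 matrices invariant under `G` lies in the
strong 2-closure of `G`. -/
theorem mem_strong_of_commute {G : Subgroup (Equiv.Perm Ω)} {σ : Equiv.Perm Ω}
    (h : ∀ M : Matrix Ω Ω F, (∀ a b, M a b = 0 ∨ M a b = 1) → (∀ a b, M a b = M b a) →
      (∀ g ∈ G, ∀ a b, M (g a) (g b) = M a b) →
      ∀ v, Matrix.toLin' M (T F σ v) = T F σ (Matrix.toLin' M v)) :
    σ ∈ strongTwoClosure G := by
  classical
  intro s hs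
  set M : Matrix Ω Ω F := orbMat G s F with hM
  have hMsymm : ∀ a b, M a b = M b a := by
    intro a b
    simp only [hM, orbMat, Finset.pair_comm b a]
  have hMG : ∀ g ∈ G, ∀ a b, M (g a) (g b) = M a b := by
    intro g hg a b
    simp only [hM, orbMat, pair_map, mem_orbit_map G s hg]
  have hcomm := h M (by
    intro a b
    simp only [hM, orbMat]
    by_cases h : ({a, b} : Finset Ω) ∈ setOrbit G s
    · right; rw [if_pos h]
    · left; rw [if_neg h]) hMsymm hMG
  rw [commute_iff'] at hcomm
  have hσ' : ∀ t : Finset Ω, t.card = 2 →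
      (t.map σ.toEmbedding ∈ setOrbit G s ↔ t ∈ setOrbit G s) := by
    intro t ht
    obtain ⟨a, b, -, rfl⟩ := Finset.card_eq_two.mp ht
    have h := hcomm a b
    rw [toLin'_entry, toLin'_entry] at h
    simp only [hM, orbMat, pair_map] at h
    by_cases h1 : ({a, b} : Finset Ω) ∈ setOrbit G s <;>
      by_cases h2 : ({a, b} : Finset Ω).map σ.toEmbedding ∈ setOrbit G s <;>
      simp_all
  have hcard : ∀ t ∈ setOrbit G s, t.card = 2 := by
    rintro t ⟨g, -, rfl⟩
    rw [Finset.card_map, hs]
  ext t
  constructor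
  · rintro ⟨u, hu, rfl⟩
    exact (hσ' u (hcard u hu)).mpr hu
  · intro ht
    have ht' : (t.map (Equiv.symm σ).toEmbedding).map σ.toEmbedding = t := by
      ext x; simp
    refine ⟨t.map (Equiv.symm σ).toEmbedding, ?_, ht'⟩
    rw [← hσ' _ (by rw [Finset.card_map, hcard t ht]), ht']
    exact ht

omit [LinearOrder F] [IsStrictOrderedRing F] in
lemma toLin'_comm {G : Subgroup (Equiv.Perm Ω)} {M : Matrix Ω Ω F}
    (hM : ∀ g ∈ G, ∀ a b, M (g a) (g b) = M a b) :
    ∀ g ∈ G, ∀ v, Matrix.toLin' M (T F g v) = T F g (Matrix.toLin' M v) := by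
  intro g hg
  rw [commute_iff']
  intro a b
  rw [toLin'_entry, toLin'_entry, hM g hg]

/-- `F` contains all totally real algebraic integers: every monic integer polynomial which
splits over `ℝ` splits over `F`. -/
def TotallyRealClosed (F : Type*) [Field F] : Prop :=
  ∀ f : ℤ[X], f.Monic → (f.map (Int.castRingHom ℝ)).Splits → (f.map (Int.castRingHom F)).Splits

/-- **Part 2.** -/
theorem subset_strong' (hF : TotallyRealClosed F) (G : Subgroup (Equiv.Perm Ω)) :
    fieldClosure F G ⊆ strongTwoClosure G := by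
  classical
  intro σ hσ
  apply mem_strong_of_commute (F := F)
  intro M h01 hsymm hMG
  let M₀ : Matrix Ω Ω ℤ := fun a b => if M a b = 0 then 0 else 1
  have hMF : M₀.map (Int.castRingHom F) = M := by
    ext a b
    rw [Matrix.map_apply]
    simp only [M₀]
    rcases h01 a b with h | h
    · rw [if_pos h, h]; simp
    · rw [if_neg (by rw [h]; exact one_ne_zero), h]; simp
  have hsymm₀ : ∀ a b, M₀ a b = M₀ b a := by
    intro a b
    simp only [M₀, hsymm a b]
  have hherm : (M₀.map (Int.castRingHom ℝ)).IsHermitian := by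
    ext a b
    rw [Matrix.conjTranspose_apply, star_trivial, Matrix.map_apply, Matrix.map_apply, hsymm₀]
  refine commute_of_mem_fieldClosure' hσ (sym_toLin' hsymm) (toLin'_comm hMG)
    (p := M.charpoly) (Matrix.charpoly_monic M).ne_zero ?_ ?_
  · rw [← hMF, Matrix.charpoly_map]
    apply hF _ (Matrix.charpoly_monic M₀)
    rw [← Matrix.charpoly_map]
    exact hherm.splits_charpoly
  · have := LinearMap.aeval_self_charpoly (Matrix.toLin' M)
    rwa [Matrix.charpoly_toLin'] at this

end Pool.Agent.FCL
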