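import Mathlib
import Pool.Agent.FCL.Spectral

/-!
# Field closures of the regular cyclic groups
-/

set_option autoImplicit false

namespace Pool.Agent.FCL

open Pool.Agent.Results.MP_5a426c_al.RealClosure Polynomial

/-- The regular cyclic group of degree `n`: all translations `x ↦ x + c` of `ZMod n`. -/
def cyc (n : ℕ) : Subgroup (Equiv.Perm (ZMod n)) where
  carrier := {σ | ∃ c : ZMod n, ∀ x, σ x = x + c}
  mul_mem' := by
    rintro σ τ ⟨c, hc⟩ ⟨d, hd⟩
    exact ⟨d + c, fun x => by rw [Equiv.Perm.mul_apply, hc, hd, add_assoc]⟩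
  one_mem' := ⟨0, fun x => by simp⟩
  inv_mem' := by
    rintro σ ⟨c, hc⟩
    refine ⟨-c, fun x => ?_⟩
    rw [Equiv.Perm.inv_def, Equiv.symm_apply_eq, hc]
    simp

lemma mem_cyc {n : ℕ} {σ : Equiv.Perm (ZMod n)} :
    σ ∈ cyc n ↔ ∃ c : ZMod n, ∀ x, σ x = x + c := Iff.rfl

variable {n : ℕ} {F : Type*} [Field F]

/-- The shift operator. -/
noncomputable def shift (n : ℕ) (F : Type*) [Field F] : (ZMod n →₀ F) →ₗ[F] (ZMod n →₀ F) :=
  permMap F (Equiv.addRight (1 : ZMod n))

lemma permMap_single {Ω : Type*} (σ : Equiv.Perm Ω) (a : Ω) (c : F) :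
    permMap F σ (Finsupp.single a c) = Finsupp.single (σ a) c := by
  rw [permMap, Finsupp.lmapDomain_apply, Finsupp.mapDomain_single]

lemma shift_single (x : ZMod n) (c : F) :
    (shift n F) (Finsupp.single x c) = Finsupp.single (x + 1) c := by
  rw [shift, permMap_single]; rfl

lemma shift_pow_single (k : ℕ) (x : ZMod n) (c : F) :
    (shift n F ^ k) (Finsupp.single x c) = Finsupp.single (x + k) c := by
  induction k generalizing x with
  | zero => simp
  | succ k ih =>
    rw [pow_succ, Module.End.mul_apply, shift_single, ih]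
    congr 1; push_cast; ring

/-- The evaluation `p ↦ p(shift) e₀`. -/
noncomputable def ev (n : ℕ) (F : Type*) [Field F] : F[X] →ₗ[F] (ZMod n →₀ F) :=
  (LinearMap.applyₗ (Finsupp.single (0 : ZMod n) (1 : F))) ∘ₗ
    (Polynomial.aeval (shift n F)).toLinearMap

lemma ev_apply (p : F[X]) :
    ev n F p = Polynomial.aeval (shift n F) p (Finsupp.single (0 : ZMod n) (1 : F)) := rfl

lemma ev_mul (p q : F[X]) : ev n F (p * q) = Polynomial.aeval (shift n F) p (ev n F q) := by
  rw [ev_apply, map_mul, Module.End.mul_apply, ev_apply]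

lemma ev_monomial (k : ℕ) (a : F) : ev n F (monomial k a) = Finsupp.single (k : ZMod n) a := by
  rw [ev_apply, aeval_monomial, Module.End.mul_apply, shift_pow_single, zero_add,
    Module.algebraMap_end_apply, Finsupp.smul_single, smul_eq_mul, mul_one]

lemma ev_surjective [NeZero n] : Function.Surjective (ev n F) := by
  intro v
  induction v using Finsupp.induction_linear with
  | zero => exact ⟨0, map_zero _⟩
  | add f g hf hg =>
    obtain ⟨p, rfl⟩ := hf
    obtain ⟨q, rfl⟩ := hg
    exact ⟨p + q, map_add _ _ _⟩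
  | single a c =>
    refine ⟨monomial a.val c, ?_⟩
    rw [ev_monomial, ZMod.natCast_val, ZMod.cast_id', id]

lemma ev_expand [NeZero n] (u : (ZMod n)ˣ) (p : F[X]) :
    permMap F (Units.mulLeft u) (ev n F p) = ev n F (expand F (u : ZMod n).val p) := by
  induction p using Polynomial.induction_on' with
  | add p q hp hq => rw [map_add, map_add, map_add, map_add, hp, hq]
  | monomial k a =>
    have h1 : expand F (u : ZMod n).val (monomial k a) =
        monomial ((u : ZMod n).val * k) a := by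
      rw [← C_mul_X_pow_eq_monomial, ← C_mul_X_pow_eq_monomial, map_mul, expand_C, map_pow,
        expand_X, ← pow_mul]
    rw [h1, ev_monomial, ev_monomial, permMap_single]
    congr 1
    push_cast
    rw [ZMod.natCast_val, ZMod.cast_id', id]
    rfl

lemma ev_X_pow_sub_one : ev n F (X ^ n - 1) = 0 := by
  have h1 : (X ^ n - 1 : F[X]) = monomial n 1 - monomial 0 1 := by
    rw [monomial_zero_one, ← X_pow_eq_monomial]
  rw [h1, map_sub, ev_monomial, ev_monomial, ZMod.natCast_self, Nat.cast_zero, sub_self]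

lemma aeval_shift_mem {W : Submodule F (ZMod n →₀ F)} (hW : IsInvariant (cyc n) W) (q : F[X])
    {v : ZMod n →₀ F} (hv : v ∈ W) : Polynomial.aeval (shift n F) q v ∈ W := by
  have h1 : ∀ v ∈ W, shift n F v ∈ W := by
    intro v hv
    exact hW (Equiv.addRight (1 : ZMod n)) ⟨1, fun x => rfl⟩ ⟨v, hv, rfl⟩
  have h2 : ∀ k : ℕ, ∀ v ∈ W, (shift n F ^ k) v ∈ W := by
    intro k
    induction k with
    | zero => intro v hv; simpa using hv
    | succ k ih =>
      intro v hv
      rw [pow_succ, Module.End.mul_apply]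
      exact ih _ (h1 v hv)
  induction q using Polynomial.induction_on' with
  | add p q hp hq => rw [map_add, LinearMap.add_apply]; exact W.add_mem hp hq
  | monomial k a =>
    rw [aeval_monomial, Module.End.mul_apply, Module.algebraMap_end_apply]
    exact W.smul_mem _ (h2 k v hv)

lemma exists_generator {W : Submodule F (ZMod n →₀ F)} (hW : IsInvariant (cyc n) W) :
    ∃ g : F[X], ∀ p : F[X], ev n F p ∈ W ↔ g ∣ p := by
  let I : Ideal F[X] :=
    { carrier := {p | ev n F p ∈ W}
      add_mem' := by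
        intro p q hp hq
        change ev n F (p + q) ∈ W
        rw [map_add]; exact W.add_mem hp hq
      zero_mem' := by
        change ev n F 0 ∈ W
        rw [map_zero]; exact W.zero_mem
      smul_mem' := by
        intro q p hp
        change ev n F (q * p) ∈ W
        rw [ev_mul]; exact aeval_shift_mem hW q hp }
  obtain ⟨g, hg⟩ := IsPrincipalIdealRing.principal I
  refine ⟨g, fun p => ?_⟩
  have h1 : p ∈ I ↔ g ∣ p := by
    have : I = Ideal.span {g} := hg
    rw [this, Ideal.mem_span_singleton]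
  exact h1

lemma dvd_of_roots {L : Type*} [Field L] [Algebra F L] {ζ : L} [NeZero n]
    (hζ : IsPrimitiveRoot ζ n) {g p : F[X]} (hg : g ∣ X ^ n - 1)
    (h : ∀ ρ : L, ρ ^ n = 1 → Polynomial.aeval ρ g = 0 → Polynomial.aeval ρ p = 0) : g ∣ p := by
  classical
  have hn : 0 < n := Nat.pos_of_ne_zero (NeZero.ne n)
  by_cases hp0 : p = 0
  · rw [hp0]; exact dvd_zero _
  have hX0 : (X ^ n - 1 : F[X]) ≠ 0 := by
    have := monic_X_pow_sub_C (1 : F) (NeZero.ne n)
    rw [map_one] at this
    exact this.ne_zero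
  have hX0' : (X ^ n - 1 : L[X]) ≠ 0 := by
    have := monic_X_pow_sub_C (1 : L) (NeZero.ne n)
    rw [map_one] at this
    exact this.ne_zero
  have hg0 : g ≠ 0 := fun h0 => hX0 (zero_dvd_iff.mp (h0 ▸ hg))
  have hinj : Function.Injective (algebraMap F L) := (algebraMap F L).injective
  rw [← Polynomial.map_dvd_map' (algebraMap F L)]
  have hgL : g.map (algebraMap F L) ∣ X ^ n - 1 := by
    have := Polynomial.map_dvd (algebraMap F L) hg
    simpa using this
  have hgs : (g.map (algebraMap F L)).Splits := (X_pow_sub_one_splits hζ).of_dvd hX0' hgL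
  have hg0' : g.map (algebraMap F L) ≠ 0 := (Polynomial.map_ne_zero_iff hinj).mpr hg0
  have hp0' : p.map (algebraMap F L) ≠ 0 := (Polynomial.map_ne_zero_iff hinj).mpr hp0
  have hnodup : (g.map (algebraMap F L)).roots.Nodup := by
    have h1 : (X ^ n - 1 : L[X]).roots.Nodup := by
      have := hζ.nthRoots_one_nodup
      rwa [nthRoots, map_one] at this
    exact Multiset.nodup_of_le (roots.le_of_dvd hX0' hgL) h1
  apply hgs.dvd_of_roots_le_roots hg0'
  rw [Multiset.le_iff_subset hnodup]
  intro ρ hρ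
  rw [mem_roots hg0', IsRoot.def, eval_map_algebraMap] at hρ
  rw [mem_roots hp0', IsRoot.def, eval_map_algebraMap]
  apply h ρ _ hρ
  obtain ⟨q, hq⟩ := hg
  have h2 := congrArg (Polynomial.aeval ρ) hq
  rw [map_mul, hρ, zero_mul] at h2
  simpa [sub_eq_zero] using h2

lemma aut_pow {L : Type*} [Field L] [Algebra F L] {ζ : L} [NeZero n]
    (hζ : IsPrimitiveRoot ζ n) (τ : L ≃ₐ[F] L) {ρ : L} (hρ : ρ ^ n = 1) :
    τ ρ = ρ ^ (hζ.autToPow F τ : ZMod n).val := by
  obtain ⟨j, -, rfl⟩ := hζ.eq_pow_of_pow_eq_one hρ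
  rw [map_pow, ← hζ.autToPow_spec F τ, ← pow_mul, ← pow_mul, mul_comm]

lemma map_eq_of_le {Ω : Type*} [Finite Ω] (σ : Equiv.Perm Ω) (W : Submodule F (Ω →₀ F))
    (h : W.map (permMap F σ) ≤ W) : W.map (permMap F σ) = W := by
  have e : permMap F σ = (Finsupp.domLCongr (R := F) σ).toLinearMap := by
    apply Finsupp.lhom_ext
    intro a c
    rw [permMap_single]
    simp
  apply Submodule.eq_of_le_of_finrank_eq h
  rw [e]
  exact LinearEquiv.finrank_map_eq _ W

/-- The multiplications by the exponents of the Galois group lie in the field closure. -/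
theorem mul_mem_fieldClosure {L : Type*} [Field L] [Algebra F L] {ζ : L} [NeZero n]
    (hζ : IsPrimitiveRoot ζ n) (τ : L ≃ₐ[F] L) :
    (Units.mulLeft (hζ.autToPow F τ) : Equiv.Perm (ZMod n)) ∈ fieldClosure F (cyc n) := by
  intro W hW
  apply map_eq_of_le
  obtain ⟨g, hg⟩ := exists_generator hW
  rintro _ ⟨w, hw, rfl⟩
  obtain ⟨p, rfl⟩ := ev_surjective w
  rw [ev_expand, hg]
  have hp : g ∣ p := (hg p).mp hw
  have hgX : g ∣ X ^ n - 1 := (hg _).mp (by rw [ev_X_pow_sub_one]; exact W.zero_mem)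
  apply dvd_of_roots hζ hgX
  intro ρ hρ hρg
  rw [expand_aeval, ← aut_pow hζ τ hρ]
  obtain ⟨q, rfl⟩ := hp
  have h1 : Polynomial.aeval ρ (g * q) = 0 := by rw [map_mul, hρg, zero_mul]
  have h2 : Polynomial.aeval (τ ρ) (g * q) = τ (Polynomial.aeval ρ (g * q)) :=
    Polynomial.aeval_algHom_apply τ.toAlgHom ρ (g * q)
  rw [h2, h1, map_zero]

lemma mul_not_mem_strong [NeZero n] (hn : 3 ≤ n) (u : (ZMod n)ˣ) (h1 : (u : ZMod n) ≠ 1)
    (h2 : (u : ZMod n) ≠ -1) :
    (Units.mulLeft u : Equiv.Perm (ZMod n)) ∉ strongTwoClosure (cyc n) := by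
  classical
  have : Fact (1 < n) := ⟨by omega⟩
  intro h
  have h01 : (0 : ZMod n) ≠ 1 := zero_ne_one
  have h3 := h ({0, 1} : Finset (ZMod n)) (Finset.card_pair h01)
  have h4 : ({0, 1} : Finset (ZMod n)) ∈ setOrbit (cyc n) {0, 1} := by
    refine ⟨1, (cyc n).one_mem, ?_⟩
    ext x; simp
  have h5 : ({0, (u : ZMod n)} : Finset (ZMod n)) ∈ setOrbit (cyc n) {0, 1} := by
    rw [← h3]
    refine ⟨_, h4, ?_⟩
    ext x; simp
  obtain ⟨g, ⟨c, hc⟩, hg⟩ := h5
  have h6 : ({0, (u : ZMod n)} : Finset (ZMod n)) = {c, 1 + c} := by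
    rw [hg]
    ext x; simp [hc, eq_comm]
  have h7 : (0 : ZMod n) ∈ ({c, 1 + c} : Finset (ZMod n)) := by rw [← h6]; simp
  have h8 : (u : ZMod n) ∈ ({c, 1 + c} : Finset (ZMod n)) := by rw [← h6]; simp
  have h0u : (u : ZMod n) ≠ 0 := u.ne_zero
  simp only [Finset.mem_insert, Finset.mem_singleton] at h7 h8
  rcases h7 with h7 | h7
  · rcases h8 with h8 | h8
    · exact h0u (h8.trans h7.symm)
    · rw [← h7, add_zero] at h8
      exact h1 h8
  · have h9 : c = -1 := by
      have := h7.symm
      rw [add_comm] at this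
      exact eq_neg_of_add_eq_zero_left this
    rcases h8 with h8 | h8
    · exact h2 (h8.trans h9)
    · rw [← h7] at h8
      exact h0u h8

/-- **Part 3, necessity.** -/
theorem mem_range_of_subset [CharZero F] [NeZero n] (hn : 3 ≤ n) {E : Type*} [Field E]
    [Algebra F E] {ζ : E} (hζ : IsPrimitiveRoot ζ n)
    (h : fieldClosure F (cyc n) ⊆ strongTwoClosure (cyc n)) :
    ζ + ζ⁻¹ ∈ (algebraMap F E).range := by
  have hint : IsAlgebraic F ζ := (hζ.isIntegral (NeZero.pos n)).tower_top.isAlgebraic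
  let L := IntermediateField.adjoin F {ζ}
  have hL : IsCyclotomicExtension {n} F L := by
    change IsCyclotomicExtension {n} F (IntermediateField.adjoin F {ζ}).toSubalgebra
    rw [IntermediateField.adjoin_simple_toSubalgebra_of_isAlgebraic hint]
    exact hζ.adjoin_isCyclotomicExtension F
  have : IsGalois F L := IsCyclotomicExtension.isGalois {n} F L
  have : FiniteDimensional F L := IsCyclotomicExtension.finiteDimensional {n} F L
  let z : L := ⟨ζ, IntermediateField.mem_adjoin_simple_self F ζ⟩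
  have hz : IsPrimitiveRoot z n := by
    have : (algebraMap L E) z = ζ := rfl
    exact IsPrimitiveRoot.of_map_of_injective (f := algebraMap L E) (by rw [this]; exact hζ)
      (algebraMap L E).injective
  by_contra hcon
  have h1 : z + z⁻¹ ∉ Set.range (algebraMap F L) := by
    rintro ⟨a, ha⟩
    apply hcon
    refine ⟨a, ?_⟩
    have := congrArg (algebraMap L E) ha
    rw [map_add, map_inv₀] at this
    exact this
  rw [IsGalois.mem_range_algebraMap_iff_fixed] at h1
  push Not at h1
  obtain ⟨τ, hτ⟩ := h1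
  have hmem := h (mul_mem_fieldClosure hz τ)
  refine mul_not_mem_strong hn _ ?_ ?_ hmem
  · intro h2
    apply hτ
    have : Fact (1 < n) := ⟨by omega⟩
    have h3 : τ z = z := by
      rw [aut_pow hz τ hz.pow_eq_one, h2, ZMod.val_one, pow_one]
    rw [map_add, map_inv₀, h3]
  · intro h2
    apply hτ
    have h3 : τ z = z⁻¹ := by
      rw [aut_pow hz τ hz.pow_eq_one, h2]
      apply eq_inv_of_mul_eq_one_left
      rw [← pow_succ]
      have h4 : n ∣ (-1 : ZMod n).val + 1 := by
        rw [← ZMod.natCast_eq_zero_iff]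
        push_cast
        rw [ZMod.natCast_val, ZMod.cast_id', id]
        ring
      obtain ⟨k, hk⟩ := h4
      rw [hk, pow_mul, hz.pow_eq_one, one_pow]
    rw [map_add, map_inv₀, h3, inv_inv, add_comm]

end Pool.Agent.FCL
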