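import Mathlib
import Pool.Agent.FCL.Spectral

/-!
# A criterion through the simple submodules
-/

set_option autoImplicit false

namespace Pool.Agent.FCL

open Pool.Agent.Results.MP_5a426c_al.RealClosure Polynomial

variable {Ω : Type*} [Fintype Ω] [DecidableEq Ω] {F : Type*} [Field F]

/-- `G`-invariant subspaces of the space of functions. -/
def Inv (G : Subgroup (Equiv.Perm Ω)) (W : Submodule F (Ω → F)) : Prop :=
  ∀ g ∈ G, ∀ v ∈ W, T F g v ∈ W

/-- Simple invariant subspaces. -/
def Simple (G : Subgroup (Equiv.Perm Ω)) (W : Submodule F (Ω → F)) : Prop :=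
  Inv G W ∧ W ≠ ⊥ ∧ ∀ U : Submodule F (Ω → F), Inv G U → U ≤ W → U = ⊥ ∨ U = W

/-- Operators commuting with `G`. -/
def Comm (G : Subgroup (Equiv.Perm Ω)) (P : (Ω → F) →ₗ[F] (Ω → F)) : Prop :=
  ∀ g ∈ G, ∀ v, P (T F g v) = T F g (P v)

omit [DecidableEq Ω] [Fintype Ω] in
lemma Inv.map_eq {G : Subgroup (Equiv.Perm Ω)} {W : Submodule F (Ω → F)} (hW : Inv G W)
    {g : Equiv.Perm Ω} (hg : g ∈ G) : W.map (T F g) = W := by
  apply le_antisymm
  · rintro _ ⟨w, hw, rfl⟩
    exact hW g hg w hw
  · intro w hw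
    refine ⟨T F g⁻¹ w, hW _ (G.inv_mem hg) w hw, ?_⟩
    rw [T_mul, mul_inv_cancel, T_one]

lemma map_eq_of_mem {G : Subgroup (Equiv.Perm Ω)} {σ : Equiv.Perm Ω}
    (hσ : σ ∈ fieldClosure F G) {W : Submodule F (Ω → F)} (hW : Inv G W) :
    W.map (T F σ) = W := by
  have hsurj : (W.comap (fn F (Ω := Ω)).toLinearMap).map (fn F (Ω := Ω)).toLinearMap = W :=
    Submodule.map_comap_eq_of_surjective (fn F (Ω := Ω)).surjective W
  have hinv : IsInvariant G (W.comap (fn F (Ω := Ω)).toLinearMap) := by
    rintro g hg _ ⟨w, hw, rfl⟩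
    change fn F (permMap F g w) ∈ W
    rw [fn_permMap]
    exact hW g hg _ hw
  have h1 := hσ _ hinv
  have h2 := congrArg (Submodule.map (fn F (Ω := Ω)).toLinearMap) h1
  rw [map_fn, hsurj] at h2
  exact h2

variable [LinearOrder F] [IsStrictOrderedRing F]

omit [DecidableEq Ω] in
lemma inv_orth {G : Subgroup (Equiv.Perm Ω)} {W : Submodule F (Ω → F)} (hW : Inv G W) :
    Inv G ((B Ω F).orthogonal W) := by
  intro g hg v hv
  rw [LinearMap.BilinForm.mem_orthogonal_iff] at hv ⊢
  intro w hw
  rw [dotProductBilin_apply_apply]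
  have h1 : w = T F g (T F g⁻¹ w) := by rw [T_mul, mul_inv_cancel, T_one]
  rw [h1, T_dot]
  exact hv _ (hW _ (G.inv_mem hg) w hw)

omit [LinearOrder F] [IsStrictOrderedRing F] [DecidableEq Ω] in
/-- Every nonzero invariant subspace contains a simple one. -/
lemma exists_simple (G : Subgroup (Equiv.Perm Ω)) :
    ∀ (m : ℕ) (W : Submodule F (Ω → F)), Module.finrank F W = m → Inv G W → W ≠ ⊥ →
      ∃ U, Simple G U ∧ U ≤ W := by
  intro m
  induction m using Nat.strong_induction_on with
  | _ m ih =>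
    intro W hm hW hW0
    by_cases h : Simple G W
    · exact ⟨W, h, le_rfl⟩
    · have : ∃ U : Submodule F (Ω → F), Inv G U ∧ U ≤ W ∧ U ≠ ⊥ ∧ U ≠ W := by
        by_contra hcon
        apply h
        refine ⟨hW, hW0, fun U hU hUW => ?_⟩
        by_contra h'
        push Not at h'
        exact hcon ⟨U, hU, hUW, h'.1, h'.2⟩
      obtain ⟨U, hU, hUW, hU0, hne⟩ := this
      have hlt : Module.finrank F U < m := by
        rw [← hm]
        exact Submodule.finrank_lt_finrank_of_lt (lt_of_le_of_ne hUW hne)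
      obtain ⟨U', hU', hle⟩ := ih _ hlt U rfl hU hU0
      exact ⟨U', hU', hle.trans hUW⟩

omit [DecidableEq Ω] in
/-- A subspace containing all simple invariant subspaces is everything. -/
lemma eq_top_of_simple (G : Subgroup (Equiv.Perm Ω)) (K : Submodule F (Ω → F))
    (hK : ∀ W, Simple G W → W ≤ K) : K = ⊤ := by
  let S : Submodule F (Ω → F) := sSup {W | Simple G W}
  have hS : Inv G S := by
    intro g hg
    have : S ≤ S.comap (T F g) := by
      apply sSup_le
      intro W hW w hw
      have h1 : T F g w ∈ W := hW.1 g hg w hw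
      exact (le_sSup hW : W ≤ S) h1
    exact this
  have hSK : S ≤ K := sSup_le hK
  have hSt : S = ⊤ := by
    by_contra hne
    have hc := isCompl_orth S
    have h0 : (B Ω F).orthogonal S ≠ ⊥ := by
      intro h0
      rw [h0] at hc
      exact hne (by simpa using hc.sup_eq_top)
    obtain ⟨U, hU, hle⟩ := exists_simple G _ _ rfl (inv_orth hS) h0
    have h1 : U ≤ S := le_sSup hU
    have h2 : U ≤ ⊥ := by
      rw [← hc.inf_eq_bot]
      exact le_inf h1 hle
    exact hU.2.1 (le_bot_iff.mp h2)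
  rw [eq_top_iff, ← hSt]
  exact hSK

/-- **Criterion.** If symmetric operators commuting with `G` and preserving a simple subspace
act on it as scalars, then the field closure commutes with all symmetric operators commuting
with `G`. -/
theorem commute_of_scalar {G : Subgroup (Equiv.Perm Ω)}
    (hS : ∀ W : Submodule F (Ω → F), Simple G W → ∀ P : (Ω → F) →ₗ[F] (Ω → F), Sym P →
      Comm G P → (∀ w ∈ W, P w ∈ W) → ∃ c : F, ∀ w ∈ W, P w = c • w)
    {σ : Equiv.Perm Ω} (hσ : σ ∈ fieldClosure F G) {P : (Ω → F) →ₗ[F] (Ω → F)} (hP : Sym P)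
    (hG : Comm G P) (v : Ω → F) : P (T F σ v) = T F σ (P v) := by
  have hK : LinearMap.eqLocus (P ∘ₗ T F σ) (T F σ ∘ₗ P) = ⊤ := by
    apply eq_top_of_simple G
    intro W hW w hw
    change P (T F σ w) = T F σ (P w)
    -- the scalar `c`
    have hπ : Comm G (proj W) := fun g hg v => proj_comm W g (hW.1.map_eq hg) v
    obtain ⟨c, hc⟩ := hS W hW (proj W ∘ₗ P ∘ₗ proj W)
      (by
        intro x y
        simp only [LinearMap.comp_apply]
        rw [proj_sym W, hP, proj_sym W])
      (by
        intro g hg x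
        simp only [LinearMap.comp_apply]
        rw [hπ g hg, hG g hg, hπ g hg])
      (fun w _ => proj_mem W _)
    have hc' : ∀ w ∈ W, proj W (P w) = c • w := by
      intro w hw
      have := hc w hw
      simp only [LinearMap.comp_apply] at this
      rwa [proj_of_mem hw] at this
    -- the operator `Q = P - c`
    let Q : (Ω → F) →ₗ[F] (Ω → F) := P - c • LinearMap.id
    have hQ : ∀ x, Q x = P x - c • x := fun x => by simp [Q]
    have hQs : Sym Q := by
      intro x y
      rw [hQ, hQ, sub_dotProduct, dotProduct_sub, hP, smul_dotProduct, dotProduct_smul]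
    have hQG : Comm G Q := by
      intro g hg x
      rw [hQ, hQ, hG g hg, map_sub, map_smul]
    have hQπ : ∀ w ∈ W, proj W (Q w) = 0 := by
      intro w hw
      rw [hQ, map_sub, map_smul, hc' w hw, proj_of_mem hw, sub_self]
    have hWQ : ∀ w ∈ W, ∀ x ∈ W, w ⬝ᵥ Q x = 0 := by
      intro w hw x hx
      have h1 : w ⬝ᵥ Q x = proj W w ⬝ᵥ Q x := by rw [proj_of_mem hw]
      rw [h1, proj_sym W, hQπ x hx, dotProduct_zero]
    obtain ⟨d, hd⟩ := hS W hW (proj W ∘ₗ Q ∘ₗ Q ∘ₗ proj W)
      (by
        intro x y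
        simp only [LinearMap.comp_apply]
        rw [proj_sym W, hQs, hQs, proj_sym W])
      (by
        intro g hg x
        simp only [LinearMap.comp_apply]
        rw [hπ g hg, hQG g hg, hQG g hg, hπ g hg])
      (fun w _ => proj_mem W _)
    have hd' : ∀ w ∈ W, ∀ x ∈ W, Q w ⬝ᵥ Q x = d * (w ⬝ᵥ x) := by
      intro w hw x hx
      have := hd x hx
      simp only [LinearMap.comp_apply] at this
      rw [proj_of_mem hx] at this
      rw [hQs]
      have h1 : w ⬝ᵥ Q (Q x) = proj W w ⬝ᵥ Q (Q x) := by rw [proj_of_mem hw]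
      rw [h1, proj_sym W, this, dotProduct_smul, smul_eq_mul]
    have hd0 : 0 ≤ d := by
      obtain ⟨x, hx, hx0⟩ := Submodule.exists_mem_ne_zero_of_ne_bot hW.2.1
      have h1 := hd' x hx x hx
      have h2 : 0 ≤ Q x ⬝ᵥ Q x := by
        simp only [dotProduct]
        exact Finset.sum_nonneg fun i _ => mul_self_nonneg _
      have h3 : 0 ≤ x ⬝ᵥ x := by
        simp only [dotProduct]
        exact Finset.sum_nonneg fun i _ => mul_self_nonneg _
      have h4 : x ⬝ᵥ x ≠ 0 := fun h => hx0 (dotProduct_self_eq_zero.mp h)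
      have h5 : 0 < x ⬝ᵥ x := lt_of_le_of_ne h3 (Ne.symm h4)
      rw [h1] at h2
      exact nonneg_of_mul_nonneg_left h2 h5
    have hd1 : (1 + d) ≠ 0 := by positivity
    -- the graph
    let R : (Ω → F) →ₗ[F] (Ω → F) := LinearMap.id + Q
    have hR : ∀ x, R x = x + Q x := fun x => by simp [R]
    let U : Submodule F (Ω → F) := W.map R
    have hU : Inv G U := by
      rintro g hg _ ⟨x, hx, rfl⟩
      refine ⟨T F g x, hW.1 g hg x hx, ?_⟩
      rw [hR, hR, hQG g hg, map_add]
    have hprojU : ∀ x ∈ W, proj U x = (1 + d)⁻¹ • (x + Q x) := by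
      intro x hx
      apply proj_eq
      · rw [← hR]
        exact U.smul_mem _ ⟨x, hx, rfl⟩
      · rintro _ ⟨y, hy, rfl⟩
        rw [hR, dotProduct_sub, dotProduct_smul, add_dotProduct, add_dotProduct, dotProduct_add,
          dotProduct_add, hd' y hy x hx, hWQ y hy x hx, dotProduct_comm (Q y) x, hWQ x hx y hy,
          smul_eq_mul]
        field_simp
        ring
    have hσW : ∀ x ∈ W, T F σ x ∈ W := by
      intro x hx
      have h1 := map_eq_of_mem hσ hW.1
      rw [← h1]
      exact ⟨x, hx, rfl⟩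
    have h1 : proj U (T F σ w) = T F σ (proj U w) := proj_comm U σ (map_eq_of_mem hσ hU) w
    rw [hprojU _ (hσW w hw), hprojU w hw, map_smul, map_add] at h1
    have h2 := congrArg (fun z => (1 + d) • z) h1
    simp only [smul_smul, mul_inv_cancel₀ hd1, one_smul] at h2
    have h3 : Q (T F σ w) = T F σ (Q w) := add_left_cancel h2
    rw [hQ, hQ, map_sub, map_smul] at h3
    exact sub_left_injective h3
  have : v ∈ LinearMap.eqLocus (P ∘ₗ T F σ) (T F σ ∘ₗ P) := by
    rw [hK]; exact Submodule.mem_top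
  exact this

/-- The criterion for the field closure to be contained in the strong 2-closure. -/
theorem subset_strong_of_scalar {G : Subgroup (Equiv.Perm Ω)}
    (hS : ∀ W : Submodule F (Ω → F), Simple G W → ∀ P : (Ω → F) →ₗ[F] (Ω → F), Sym P →
      Comm G P → (∀ w ∈ W, P w ∈ W) → ∃ c : F, ∀ w ∈ W, P w = c • w) :
    fieldClosure F G ⊆ strongTwoClosure G := by
  intro σ hσ
  apply mem_strong_of_commute (F := F)
  intro M _ hsymm hMG v
  exact commute_of_scalar hS hσ (sym_toLin' hsymm) (toLin'_comm hMG) v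

end Pool.Agent.FCL
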