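import Mathlib
import Pool.Agent.FCL.Scalar
import Pool.Agent.FCL.Cyclic

/-!
# Field closures of abelian permutation groups
-/

set_option autoImplicit false

namespace Pool.Agent.FCL

open Pool.Agent.Results.MP_5a426c_al.RealClosure Polynomial

section Field

variable {F : Type*} [Field F] {E : Type*} [Field E] [Algebra F E]

lemma pow_add_inv_mem {ζ : E} (hζ0 : ζ ≠ 0) (h : ζ + ζ⁻¹ ∈ (algebraMap F E).range) (j : ℕ) :
    ζ ^ j + (ζ ^ j)⁻¹ ∈ (algebraMap F E).range := by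
  induction j using Nat.strong_induction_on with
  | _ j ih =>
    rcases j with _ | _ | j
    · rw [pow_zero, inv_one]
      exact add_mem (one_mem _) (one_mem _)
    · simpa using h
    · have h1 := ih (j + 1) (by omega)
      have h2 := ih j (by omega)
      have h3 : ζ ^ (j + 1 + 1) + (ζ ^ (j + 1 + 1))⁻¹ =
          (ζ + ζ⁻¹) * (ζ ^ (j + 1) + (ζ ^ (j + 1))⁻¹) - (ζ ^ j + (ζ ^ j)⁻¹) := by
        have : ζ ^ j ≠ 0 := pow_ne_zero _ hζ0
        rw [pow_succ, pow_succ]
        field_simp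
        ring
      rw [h3]
      exact sub_mem (mul_mem h h1) h2

/-- The factorisation of `(X ^ n - 1) ^ 2` into quadratic factors over `F`. -/
lemma prod_quadratic {n : ℕ} [NeZero n] {ζ : E} (hζ : IsPrimitiveRoot ζ n) {b : ℕ → F}
    (hb : ∀ j, algebraMap F E (b j) = ζ ^ j + (ζ ^ j)⁻¹) :
    ∏ j ∈ Finset.range n, (X ^ 2 - C (b j) * X + 1 : F[X]) = (X ^ n - 1) ^ 2 := by
  have hn : 0 < n := NeZero.pos n
  apply Polynomial.map_injective (algebraMap F E) (algebraMap F E).injective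
  rw [Polynomial.map_prod]
  have h1 : ∀ j, (X ^ 2 - C (b j) * X + 1 : F[X]).map (algebraMap F E) =
      (X - C (ζ ^ j)) * (X - C ((ζ⁻¹) ^ j)) := by
    intro j
    have h0 : ζ ^ j ≠ 0 := pow_ne_zero _ (hζ.ne_zero (NeZero.ne n))
    have h2 : C (ζ ^ j) * C ((ζ ^ j)⁻¹) = (1 : E[X]) := by
      rw [← C_mul, mul_inv_cancel₀ h0, C_1]
    simp only [Polynomial.map_add, Polynomial.map_sub, Polynomial.map_mul, Polynomial.map_pow,
      map_X, map_C, hb, Polynomial.map_one, C_add, inv_pow]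
    linear_combination (-1 : E[X]) * h2
  rw [Finset.prod_congr rfl fun j _ => h1 j, Finset.prod_mul_distrib]
  have h2 : ∀ z : E, IsPrimitiveRoot z n →
      ∏ j ∈ Finset.range n, (X - C (z ^ j)) = (X ^ n - 1 : E[X]) := by
    intro z hz
    have := X_pow_sub_C_eq_prod hz hn (one_pow n : (1 : E) ^ n = 1)
    rw [C_1] at this
    rw [this]
    simp only [mul_one]
  rw [h2 ζ hζ, h2 ζ⁻¹ hζ.inv, Polynomial.map_pow, Polynomial.map_sub, Polynomial.map_pow, map_X,
    Polynomial.map_one, sq]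

end Field

variable {Ω : Type*} [Fintype Ω] [DecidableEq Ω] {F : Type*} [Field F]

omit [Fintype Ω] [DecidableEq Ω] in
lemma T_pow (g : Equiv.Perm Ω) (k : ℕ) (v : Ω → F) : (T F g ^ k) v = T F (g ^ k) v := by
  induction k generalizing v with
  | zero => rw [pow_zero, pow_zero, T_one]; rfl
  | succ k ih => rw [pow_succ, pow_succ, Module.End.mul_apply, ih, T_mul]

omit [Fintype Ω] [DecidableEq Ω] in
lemma aeval_T_mem {W : Submodule F (Ω → F)} {g : Equiv.Perm Ω} (h : ∀ v ∈ W, T F g v ∈ W)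
    (q : F[X]) {v : Ω → F} (hv : v ∈ W) : Polynomial.aeval (T F g) q v ∈ W := by
  have h2 : ∀ k : ℕ, ∀ v ∈ W, (T F g ^ k) v ∈ W := by
    intro k
    induction k with
    | zero => intro v hv; simpa using hv
    | succ k ih =>
      intro v hv
      rw [pow_succ, Module.End.mul_apply]
      exact ih _ (h v hv)
  induction q using Polynomial.induction_on' with
  | add p q hp hq => rw [map_add, LinearMap.add_apply]; exact W.add_mem hp hq
  | monomial k a =>
    rw [aeval_monomial, Module.End.mul_apply, Module.algebraMap_end_apply]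
    exact W.smul_mem _ (h2 k v hv)

omit [Fintype Ω] [DecidableEq Ω] in
lemma exists_factor {W : Submodule F (Ω → F)} {g : Equiv.Perm Ω} (h : ∀ v ∈ W, T F g v ∈ W)
    (p : ℕ → F[X]) (s : Finset ℕ) :
    ∀ w ∈ W, w ≠ 0 → Polynomial.aeval (T F g) (∏ j ∈ s, p j) w = 0 →
      ∃ j ∈ s, ∃ w' ∈ W, w' ≠ 0 ∧ Polynomial.aeval (T F g) (p j) w' = 0 := by
  classical
  induction s using Finset.induction_on with
  | empty =>
    intro w _ hw0 h0
    exact absurd (by simpa using h0) hw0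
  | insert a s ha ih =>
    intro w hw hw0 h0
    by_cases h1 : Polynomial.aeval (T F g) (∏ j ∈ s, p j) w = 0
    · obtain ⟨j, hj, h2⟩ := ih w hw hw0 h1
      exact ⟨j, Finset.mem_insert_of_mem hj, h2⟩
    · refine ⟨a, Finset.mem_insert_self a s, _, aeval_T_mem h _ hw, h1, ?_⟩
      rw [← Module.End.mul_apply, ← map_mul, ← Finset.prod_insert ha]
      exact h0

omit [DecidableEq Ω] in
/-- On a simple subspace every `g + g⁻¹` acts as a scalar. -/
lemma add_inv_scalar {E : Type*} [Field E] [Algebra F E] {n : ℕ} [NeZero n] {ζ : E}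
    (hζ : IsPrimitiveRoot ζ n) (hF : ζ + ζ⁻¹ ∈ (algebraMap F E).range)
    {G : Subgroup (Equiv.Perm Ω)} (hab : ∀ g ∈ G, ∀ h ∈ G, g * h = h * g)
    (hexp : ∀ g ∈ G, g ^ n = 1) {W : Submodule F (Ω → F)} (hW : Simple G W)
    {g : Equiv.Perm Ω} (hg : g ∈ G) :
    ∃ b : F, ∀ w ∈ W, T F g w + T F g⁻¹ w = b • w := by
  have hmem := fun j => pow_add_inv_mem (hζ.ne_zero (NeZero.ne n)) hF j
  choose b hb using hmem
  obtain ⟨w, hw, hw0⟩ := Submodule.exists_mem_ne_zero_of_ne_bot hW.2.1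
  have h0 : Polynomial.aeval (T F g)
      (∏ j ∈ Finset.range n, (X ^ 2 - C (b j) * X + 1 : F[X])) w = 0 := by
    rw [prod_quadratic hζ hb, sq, map_mul, Module.End.mul_apply]
    have h1 : Polynomial.aeval (T F g) (X ^ n - 1 : F[X]) w = 0 := by
      rw [map_sub, map_pow, aeval_X, map_one, LinearMap.sub_apply, T_pow, hexp g hg, T_one]
      simp
    rw [h1, map_zero]
  obtain ⟨j, -, w', hw', hw'0, h1⟩ := exists_factor (fun v hv => hW.1 g hg v hv)
    (fun j => (X ^ 2 - C (b j) * X + 1 : F[X])) _ w hw hw0 h0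
  have heq : ∀ x : Ω → F, Polynomial.aeval (T F g) (X ^ 2 - C (b j) * X + 1 : F[X]) x =
      T F g (T F g x) - b j • T F g x + x := by
    intro x
    simp [Module.algebraMap_end_apply, sq]
  refine ⟨b j, ?_⟩
  let U : Submodule F (Ω → F) :=
    W ⊓ LinearMap.ker (Polynomial.aeval (T F g) (X ^ 2 - C (b j) * X + 1 : F[X]))
  have hcomm : ∀ h ∈ G, ∀ x : Ω → F, T F g (T F h x) = T F h (T F g x) := by
    intro h hh x
    rw [T_mul, T_mul, hab g hg h hh]
  have hU : Inv G U := by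
    rintro h hh x ⟨hx, hx'⟩
    refine ⟨hW.1 h hh x hx, ?_⟩
    change _ = _ at hx'
    change _ = _
    rw [heq] at hx' ⊢
    rw [hcomm h hh, hcomm h hh, ← map_smul, ← map_sub, ← map_add, hx', map_zero]
  have hUW : U = W := by
    rcases hW.2.2 U hU inf_le_left with h | h
    · exfalso
      have : w' ∈ U := ⟨hw', h1⟩
      rw [h] at this
      exact hw'0 (by simpa using this)
    · exact h
  intro x hx
  have hx' : x ∈ U := by rw [hUW]; exact hx
  have h2 : Polynomial.aeval (T F g) (X ^ 2 - C (b j) * X + 1 : F[X]) x = 0 := hx'.2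
  rw [heq] at h2
  have h3 := congrArg (T F g⁻¹) h2
  rw [map_add, map_sub, map_smul, T_mul, inv_mul_cancel, T_one, T_mul, inv_mul_cancel, T_one,
    map_zero] at h3
  linear_combination h3

variable [LinearOrder F] [IsStrictOrderedRing F]

omit [DecidableEq Ω] [LinearOrder F] [IsStrictOrderedRing F] in
lemma T_inv_dot (g : Equiv.Perm Ω) (v w : Ω → F) : T F g v ⬝ᵥ w = v ⬝ᵥ T F g⁻¹ w := by
  calc T F g v ⬝ᵥ w = T F g v ⬝ᵥ T F g (T F g⁻¹ w) := by rw [T_mul, mul_inv_cancel, T_one]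
    _ = v ⬝ᵥ T F g⁻¹ w := T_dot g _ _

omit [DecidableEq Ω] in
lemma dot_pos {x : Ω → F} (hx : x ≠ 0) : 0 < x ⬝ᵥ x := by
  have h3 : 0 ≤ x ⬝ᵥ x := by
    simp only [dotProduct]
    exact Finset.sum_nonneg fun i _ => mul_self_nonneg _
  exact lt_of_le_of_ne h3 (fun h => hx (dotProduct_self_eq_zero.mp h.symm))

omit [DecidableEq Ω] in
/-- For abelian groups symmetric operators act on simple subspaces as scalars. -/
lemma scalar_of_abelian {G : Subgroup (Equiv.Perm Ω)} (hab : ∀ g ∈ G, ∀ h ∈ G, g * h = h * g)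
    {W : Submodule F (Ω → F)} (hW : Simple G W)
    (hA : ∀ g ∈ G, ∃ b : F, ∀ w ∈ W, T F g w + T F g⁻¹ w = b • w)
    {P : (Ω → F) →ₗ[F] (Ω → F)} (hP : Sym P) (hG : Comm G P) (hPW : ∀ w ∈ W, P w ∈ W) :
    ∃ c : F, ∀ w ∈ W, P w = c • w := by
  obtain ⟨w₀, hw₀, hw₀0⟩ := Submodule.exists_mem_ne_zero_of_ne_bot hW.2.1
  by_cases hcase : ∀ g ∈ G, T F g w₀ = T F g⁻¹ w₀
  · -- `W` is one-dimensional
    have hU : Inv G (Submodule.span F {w₀}) := by
      intro g hg x hx
      obtain ⟨c, rfl⟩ := Submodule.mem_span_singleton.mp hx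
      obtain ⟨b, hb⟩ := hA g hg
      have h1 := hb w₀ hw₀
      rw [← hcase g hg] at h1
      rw [map_smul]
      apply Submodule.smul_mem
      rw [Submodule.mem_span_singleton]
      refine ⟨b / 2, ?_⟩
      have h2 : (2 : F) ≠ 0 := two_ne_zero
      have h3 : (2 : F) • T F g w₀ = b • w₀ := by rw [two_smul]; exact h1
      calc (b / 2) • w₀ = (2 : F)⁻¹ • (b • w₀) := by rw [smul_smul]; congr 1; field_simp
        _ = T F g w₀ := by rw [← h3, smul_smul, inv_mul_cancel₀ h2, one_smul]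
    have hle : Submodule.span F {w₀} ≤ W := by
      rw [Submodule.span_singleton_le_iff_mem]; exact hw₀
    have hUW : Submodule.span F {w₀} = W := by
      rcases hW.2.2 _ hU hle with h | h
      · exact absurd (Submodule.span_singleton_eq_bot.mp h) hw₀0
      · exact h
    have h1 : P w₀ ∈ Submodule.span F {w₀} := by rw [hUW]; exact hPW w₀ hw₀
    obtain ⟨c, hc⟩ := Submodule.mem_span_singleton.mp h1
    refine ⟨c, fun w hw => ?_⟩
    rw [← hUW] at hw
    obtain ⟨a, rfl⟩ := Submodule.mem_span_singleton.mp hw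
    rw [map_smul, ← hc, smul_comm]
  · push Not at hcase
    obtain ⟨k, hk, hkw⟩ := hcase
    -- the antisymmetric operator
    let J : Equiv.Perm Ω → (Ω → F) →ₗ[F] (Ω → F) := fun g => T F g - T F g⁻¹
    have hJ : ∀ g x, J g x = T F g x - T F g⁻¹ x := fun g x => by simp [J]
    have hJW : ∀ g ∈ G, ∀ x ∈ W, J g x ∈ W := by
      intro g hg x hx
      rw [hJ]
      exact W.sub_mem (hW.1 g hg x hx) (hW.1 _ (G.inv_mem hg) x hx)
    have hJG : ∀ g ∈ G, ∀ h ∈ G, ∀ x, J g (T F h x) = T F h (J g x) := by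
      intro g hg h hh x
      rw [hJ, hJ, map_sub, T_mul, T_mul, T_mul, T_mul, hab g hg h hh,
        hab g⁻¹ (G.inv_mem hg) h hh]
    -- products of two such operators are scalars on `W`
    have hJJ : ∀ g ∈ G, ∀ h ∈ G, ∃ c : F, ∀ x ∈ W, J g (J h x) = c • x := by
      intro g hg h hh
      obtain ⟨b₁, hb₁⟩ := hA (g * h) (G.mul_mem hg hh)
      obtain ⟨b₂, hb₂⟩ := hA (g * h⁻¹) (G.mul_mem hg (G.inv_mem hh))
      refine ⟨b₁ - b₂, fun x hx => ?_⟩
      have h1 := hb₁ x hx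
      have h2 := hb₂ x hx
      have e1 : (g * h)⁻¹ = g⁻¹ * h⁻¹ := by
        rw [mul_inv_rev, hab _ (G.inv_mem hh) _ (G.inv_mem hg)]
      have e2 : (g * h⁻¹)⁻¹ = g⁻¹ * h := by
        rw [mul_inv_rev, inv_inv, hab _ hh _ (G.inv_mem hg)]
      rw [e1, ← T_mul, ← T_mul] at h1
      rw [e2, ← T_mul, ← T_mul] at h2
      rw [hJ, hJ, map_sub, map_sub, sub_smul, ← h1, ← h2]
      abel
    -- `J k` is injective on `W`
    have hkw0 : J k w₀ ≠ 0 := by rw [hJ]; exact sub_ne_zero.mpr hkw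
    obtain ⟨β, hβ⟩ := hJJ k hk k hk
    have hanti : ∀ g (x y : Ω → F), J g x ⬝ᵥ y = - (x ⬝ᵥ J g y) := by
      intro g x y
      rw [hJ, hJ, sub_dotProduct, T_inv_dot, T_inv_dot, inv_inv, dotProduct_sub]
      ring
    have hβ0 : β ≠ 0 := by
      intro h0
      have h1 := hβ w₀ hw₀
      rw [h0, zero_smul] at h1
      have h2 : J k w₀ ⬝ᵥ J k w₀ = 0 := by rw [hanti, h1, dotProduct_zero, neg_zero]
      exact hkw0 (dotProduct_self_eq_zero.mp h2)
    -- every `J g` is a multiple of `J k`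
    have hmul : ∀ g ∈ G, ∃ c : F, ∀ x ∈ W, J g x = c • J k x := by
      intro g hg
      obtain ⟨c, hc⟩ := hJJ k hk g hg
      refine ⟨β⁻¹ * c, fun x hx => ?_⟩
      have h1 := hβ (J g x) (hJW g hg x hx)
      have h2 := hc x hx
      rw [h2, map_smul] at h1
      rw [mul_smul, h1, smul_smul, inv_mul_cancel₀ hβ0, one_smul]
    have hT : ∀ g ∈ G, ∃ a c : F, ∀ x ∈ W, T F g x = a • x + c • J k x := by
      intro g hg
      obtain ⟨b, hb⟩ := hA g hg
      obtain ⟨c, hc⟩ := hmul g hg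
      refine ⟨b / 2, c / 2, fun x hx => ?_⟩
      have h1 := hb x hx
      have h2 := hc x hx
      rw [hJ] at h2
      have h3 : (2 : F) • T F g x = b • x + c • J k x := by
        rw [two_smul, ← h1, ← h2]; abel
      have h4 : T F g x = (2 : F)⁻¹ • ((2 : F) • T F g x) := by
        rw [smul_smul, inv_mul_cancel₀ two_ne_zero, one_smul]
      rw [h4, h3, smul_add, smul_smul, smul_smul, div_eq_inv_mul, div_eq_inv_mul]
    -- `W` is spanned by `w₀` and `J k w₀`
    let U : Submodule F (Ω → F) := Submodule.span F {w₀, J k w₀}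
    have hUmem : ∀ x, x ∈ U ↔ ∃ a c : F, a • w₀ + c • J k w₀ = x := by
      intro x
      exact Submodule.mem_span_pair
    have hUJ : ∀ x ∈ U, J k x ∈ U := by
      intro x hx
      obtain ⟨a, c, rfl⟩ := (hUmem x).mp hx
      rw [map_add, map_smul, map_smul, hβ w₀ hw₀, hUmem]
      exact ⟨c * β, a, by rw [mul_smul, add_comm]⟩
    have hle : U ≤ W := by
      intro x hx
      obtain ⟨a, c, rfl⟩ := (hUmem x).mp hx
      exact W.add_mem (W.smul_mem _ hw₀) (W.smul_mem _ (hJW k hk w₀ hw₀))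
    have hU : Inv G U := by
      intro g hg x hx
      obtain ⟨a, c, hac⟩ := hT g hg
      rw [hac x (hle hx)]
      exact U.add_mem (U.smul_mem _ hx) (U.smul_mem _ (hUJ x hx))
    have hw₀U : w₀ ∈ U := (hUmem w₀).mpr ⟨1, 0, by simp⟩
    have hUW : U = W := by
      rcases hW.2.2 _ hU hle with h | h
      · rw [h] at hw₀U
        exact absurd (by simpa using hw₀U) hw₀0
      · exact h
    have h1 : P w₀ ∈ U := by rw [hUW]; exact hPW w₀ hw₀
    obtain ⟨x, y, hxy⟩ := (hUmem _).mp h1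
    have hPJ : ∀ v, P (J k v) = J k (P v) := by
      intro v
      rw [hJ, hJ, map_sub, hG k hk, hG _ (G.inv_mem hk)]
    have h2 : P w₀ ⬝ᵥ J k w₀ = 0 := by
      have h3 : P w₀ ⬝ᵥ J k w₀ = - (P w₀ ⬝ᵥ J k w₀) := by
        nth_rewrite 1 [hP, hPJ, dotProduct_comm, hanti]
        rfl
      linarith
    have h3 : w₀ ⬝ᵥ J k w₀ = 0 := by
      have h4 : w₀ ⬝ᵥ J k w₀ = - (w₀ ⬝ᵥ J k w₀) := by
        nth_rewrite 1 [dotProduct_comm, hanti]
        rfl
      linarith
    have h4 : y = 0 := by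
      rw [← hxy, add_dotProduct, smul_dotProduct, smul_dotProduct, h3, smul_zero, zero_add,
        smul_eq_mul] at h2
      exact (mul_eq_zero.mp h2).resolve_right (dot_pos hkw0).ne'
    rw [h4, zero_smul, add_zero] at hxy
    refine ⟨x, fun w hw => ?_⟩
    rw [← hUW] at hw
    obtain ⟨a, c, rfl⟩ := (hUmem w).mp hw
    rw [map_add, map_smul, map_smul, hPJ, ← hxy, map_smul, smul_add, smul_comm a x,
      smul_comm c x]

/-- **Part 3, sufficiency.** -/
theorem abelian_subset {E : Type*} [Field E] [Algebra F E] {n : ℕ} [NeZero n] {ζ : E}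
    (hζ : IsPrimitiveRoot ζ n) (hF : ζ + ζ⁻¹ ∈ (algebraMap F E).range)
    {G : Subgroup (Equiv.Perm Ω)} (hab : ∀ g ∈ G, ∀ h ∈ G, g * h = h * g)
    (hexp : ∀ g ∈ G, g ^ n = 1) : fieldClosure F G ⊆ strongTwoClosure G := by
  apply subset_strong_of_scalar
  intro W hW P hP hG hPW
  exact scalar_of_abelian hab hW (fun g hg => add_inv_scalar hζ hF hab hexp hW hg) hP hG hPW

end Pool.Agent.FCL
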